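import Pool.Agent.Helper27.UC.Goals7

/-!
# Packet UC-PULL
-/

set_option autoImplicit false

namespace Pool.Agent.Helper63.UC.PULL

theorem pull_add (α : Type) (f : α → ℕ) (B : Multiset ℕ) : ∀ (A : Multiset ℕ) (G : Multiset α), A + B = G.map f →
    ∃ X Y : Multiset α, X + Y = G ∧ X.map f = A ∧ Y.map f = B := by
  classical
  intro A
  induction A using Multiset.induction_on with
  | empty =>
    intro G hG
    exact ⟨0, G, by simp, by simp, by rw [← hG]; simp⟩
  | cons a A ih =>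
    intro G hG
    rw [Multiset.cons_add] at hG
    obtain ⟨x, hx, hxa, hxt⟩ := (Multiset.map_eq_cons f G (A + B) a).2 hG.symm
    obtain ⟨X, Y, h1, h2, h3⟩ := ih (G.erase x) hxt.symm
    refine ⟨x ::ₘ X, Y, ?_, ?_, h3⟩
    · rw [Multiset.cons_add, h1, Multiset.cons_erase hx]
    · rw [Multiset.map_cons, hxa, h2]

theorem t : Pool.Agent.Helper27.UC.S_PULL := by
  classical
  intro α f G u A B hG
  obtain ⟨x, hx, hxa, hxt⟩ := (Multiset.map_eq_cons f G (A + B) u).2 hG.symm
  obtain ⟨X, Y, h1, h2, h3⟩ := pull_add α f B A (G.erase x) hxt.symm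
  exact ⟨x, X, Y, by rw [h1, Multiset.cons_erase hx], hxa, h2, h3⟩

end Pool.Agent.Helper63.UC.PULL
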